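import Pool.Agent.PU.Fin

/-!
If some club of the first uncountable cardinal has no element that is regular in `L`, then there
is a sigma-ideal `I` on the Borel subsets of Cantor space whose forcing of positive Borel sets has
the countable chain condition (hence is proper), such that projective uniformization up to `I`
fails.  In Solovay's model over a ground model in which `κ` is inaccessible and not Mahlo in `L`,
the hypothesis holds.
-/

namespace Pool.Agent.Results.MP_d200da_lc.NonMahloInL

/-- If some club of `ω₁` has no element regular in `L_{ω₁}`, then projective uniformization up to
`I` fails for some sigma-ideal `I` with the countable chain condition. -/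
theorem result (h : PU.NonMahlo) :
    ∃ I : PU.SigmaIdeal (ℕ → Bool), PU.CCC I ∧ ¬ PU.ProjUnif I :=
  PU.main h

end Pool.Agent.Results.MP_d200da_lc.NonMahloInL
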