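import Pool.Agent.RMK.S.SFin

/-!
Projective uniformization up to proper ideals in Solovay's model `V[G]`, where `G` is generic over
`V = W` for the Levy collapse `Col(ω, < κ)` of an inaccessible cardinal `κ = ω₁`.

1. If `κ` is `(κ+1)`-remarkable in `V` (Schindler's definition with `V_{κ+1}` in place of all
   `H_θ`), then in `V[G]` projective uniformization up to `I` holds for every Polish space and every
   ideal `I` with `P_I` proper.
2. If `V = L` and `κ` is not `(κ+1)`-remarkable, then it fails in `V[G]` for some ideal `I` on
   Cantor space with `P_I` proper.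
3. In particular it fails if `V = L` and `κ` is the least inaccessible cardinal of `L`.
-/

namespace Pool.Agent.Results.MP_d200da_lc.SolovayRemarkable

/-- Let the universe be Solovay's model `W[G]`.  Projective uniformization holds up to all ideals
with proper forcing if `κ = ω₁` is `(κ+1)`-remarkable in `W`; it fails for some such ideal if
`W = L` and `κ` is not `(κ+1)`-remarkable in `W`, in particular if `W = L` and no cardinal below
`κ` is inaccessible in `L`. -/
theorem result {W G : Set ZFSet.{0}} (h : RMK.SolovayModel W G) :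
    (RMK.Rem W → ∀ (X : Type) [TopologicalSpace X] [PolishSpace X] [MeasurableSpace X]
      [BorelSpace X] (I : PU.SigmaIdeal X), RMK.Proper I → PU.ProjUnif I) ∧
    (W = {x | ∃ α, x ∈ PU.L α} → ¬ RMK.Rem W →
      ∃ I : PU.SigmaIdeal (ℕ → Bool), RMK.Proper I ∧ ¬ PU.ProjUnif I) ∧
    (W = {x | ∃ α, x ∈ PU.L α} → (∀ δ < Ordinal.omega 1, ¬ RMK.InaccIn W δ) →
      ∃ I : PU.SigmaIdeal (ℕ → Bool), RMK.Proper I ∧ ¬ PU.ProjUnif I) :=
  RMK.solovay_final h

end Pool.Agent.Results.MP_d200da_lc.SolovayRemarkable
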